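import Pool.Agent.helper90.DH.SpecI

/-! # Project dh/d2 (MP_5823cb_al), row QRU: uniqueness of the maps `Q`, `R` (helper38) -/

set_option autoImplicit false

open Filter Topology MeasureTheory
open scoped commutatorElement

namespace Pool.Agent.helper90.DH

open Pool.Agent.helper64.D2

theorem QRU_rep {g g' : DD} {y : ℝ → ℝ} (h : Rep g y) (h' : Rep g' y) : g = g' :=
  ev_ext g g' fun x => by rw [h x, h' x]

theorem QRU : QRU_stmt := by
  intro q Y G Q Q' R R' hQ hQ' hR hR'
  have hq : ∀ i ≤ q, Q i = Q' i := fun i hi => QRU_rep (hQ i hi) (hQ' i hi)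
  have hr : ∀ n i : ℕ, i + n = q → R i = R' i := by
    intro n
    induction n with
    | zero =>
      intro i hi
      rw [Nat.add_zero] at hi
      rw [hi, hR.1, hR'.1]
    | succ n ih =>
      intro i hi
      have hi' : i < q := by omega
      rw [hR.2 i hi', hR'.2 i hi', hq i hi'.le, hq (i + 1) hi', ih (i + 1) (by omega)]
  exact fun i hi => ⟨hq i hi, hr (q - i) i (by omega)⟩

end Pool.Agent.helper90.DH
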